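import Pool.Agent.Y84.GP.Norm

/-!
Evaluation of elements of the complex group algebra at the unitary characters which factor through a
homomorphism to `ℤ`, and the sign of a square root.
-/

set_option autoImplicit false

namespace Pool.Agent.Y84.GP

open MonoidAlgebra

universe u

variable {H : Type u} [Group H]

/-- The unitary character `h ↦ exp (i θ φ(h))`. -/
noncomputable def chr (φ : H →* Multiplicative ℤ) (θ : ℝ) : H →* ℂ where
  toFun h := Complex.exp ((θ : ℂ) * ((Multiplicative.toAdd (φ h) : ℤ) : ℂ) * Complex.I)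
  map_one' := by simp
  map_mul' a b := by
    rw [map_mul, toAdd_mul, ← Complex.exp_add]
    congr 1
    push_cast
    ring

/-- Evaluation at a character. -/
noncomputable def ev (φ : H →* Multiplicative ℤ) (θ : ℝ) : MonoidAlgebra ℂ H →ₐ[ℂ] ℂ :=
  lift ℂ ℂ H (chr φ θ)

lemma norm_chr (φ : H →* Multiplicative ℤ) (θ : ℝ) (h : H) : ‖chr φ θ h‖ = 1 := by
  change ‖Complex.exp ((θ : ℂ) * ((Multiplicative.toAdd (φ h) : ℤ) : ℂ) * Complex.I)‖ = 1
  have h1 : (θ : ℂ) * ((Multiplicative.toAdd (φ h) : ℤ) : ℂ) * Complex.I =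
      ((θ * (Multiplicative.toAdd (φ h) : ℤ) : ℝ) : ℂ) * Complex.I := by push_cast; ring
  rw [h1]
  exact Complex.norm_exp_ofReal_mul_I _

lemma ev_apply (φ : H →* Multiplicative ℤ) (θ : ℝ) (x : MonoidAlgebra ℂ H) :
    ev φ θ x = ∑ h ∈ x.coeff.support, x.coeff h * chr φ θ h := by
  unfold ev
  rw [lift_apply, Finsupp.sum]
  rfl

lemma norm_ev_le (φ : H →* Multiplicative ℤ) (θ : ℝ) (x : MonoidAlgebra ℂ H) :
    ‖ev φ θ x‖ ≤ nm x := by
  rw [ev_apply]
  refine (norm_sum_le _ _).trans ?_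
  unfold nm
  refine Finset.sum_le_sum fun h _ => ?_
  rw [norm_mul, norm_chr, mul_one]

lemma continuous_ev (φ : H →* Multiplicative ℤ) (x : MonoidAlgebra ℂ H) :
    Continuous fun θ : ℝ => ev φ θ x := by
  have h1 : (fun θ : ℝ => ev φ θ x) = fun θ : ℝ => ∑ h ∈ x.coeff.support, x.coeff h *
      Complex.exp ((θ : ℂ) * ((Multiplicative.toAdd (φ h) : ℤ) : ℂ) * Complex.I) := by
    funext θ
    rw [ev_apply]
    rfl
  rw [h1]
  fun_prop

lemma integral_exp_int (m : ℤ) :
    (∫ θ in (0 : ℝ)..(2 * Real.pi), Complex.exp (((m : ℂ) * Complex.I) * (θ : ℂ))) =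
      if m = 0 then 2 * Real.pi else 0 := by
  split_ifs with h
  · subst h
    simp
  · have h1 : ((m : ℂ) * Complex.I) ≠ 0 :=
      mul_ne_zero (by exact_mod_cast h) Complex.I_ne_zero
    rw [integral_exp_mul_complex h1]
    have h2 : Complex.exp ((m : ℂ) * Complex.I * ((2 * Real.pi : ℝ) : ℂ)) = 1 := by
      rw [Complex.exp_eq_one_iff]
      exact ⟨m, by push_cast; ring⟩
    rw [h2]
    simp

/-- A coefficient is bounded by the supremum of the absolute values of the evaluations. -/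
lemma norm_coeff_le_of_ev {φ : H →* Multiplicative ℤ} {x : MonoidAlgebra ℂ H} {δ : ℝ}
    (hx : ∀ θ, ‖ev φ θ x‖ ≤ δ) {h : H} {F : Set H} (hF : Set.InjOn φ F) (hh : h ∈ F)
    (hs : ∀ g ∈ x.coeff.support, g ∈ F) : ‖x.coeff h‖ ≤ δ := by
  classical
  have h1 : (∫ θ in (0 : ℝ)..(2 * Real.pi), ev φ θ x *
      Complex.exp (((-(Multiplicative.toAdd (φ h)) : ℤ) : ℂ) * Complex.I * (θ : ℂ))) =
      x.coeff h * (2 * Real.pi) := by
    have h2 : ∀ θ : ℝ, ev φ θ x *
        Complex.exp (((-(Multiplicative.toAdd (φ h)) : ℤ) : ℂ) * Complex.I * (θ : ℂ)) =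
        ∑ g ∈ x.coeff.support, x.coeff g * Complex.exp
          ((((Multiplicative.toAdd (φ g) - Multiplicative.toAdd (φ h) : ℤ) : ℂ) *
            Complex.I) * (θ : ℂ)) := by
      intro θ
      rw [ev_apply, Finset.sum_mul]
      refine Finset.sum_congr rfl fun g _ => ?_
      change x.coeff g * Complex.exp ((θ : ℂ) * ((Multiplicative.toAdd (φ g) : ℤ) : ℂ) *
        Complex.I) * _ = _
      rw [mul_assoc, ← Complex.exp_add]
      congr 2
      push_cast
      ring
    simp_rw [h2]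
    rw [intervalIntegral.integral_finsetSum]
    · have h3 : ∀ g ∈ x.coeff.support, (∫ θ in (0 : ℝ)..(2 * Real.pi), x.coeff g * Complex.exp
          ((((Multiplicative.toAdd (φ g) - Multiplicative.toAdd (φ h) : ℤ) : ℂ) *
            Complex.I) * (θ : ℂ))) = if g = h then x.coeff h * (2 * Real.pi) else 0 := by
        intro g hg
        rw [intervalIntegral.integral_const_mul, integral_exp_int]
        by_cases hgh : g = h
        · subst hgh
          simp
        · have hne : Multiplicative.toAdd (φ g) - Multiplicative.toAdd (φ h) ≠ 0 := by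
            intro h4
            apply hgh
            apply hF (hs g hg) hh
            apply Multiplicative.toAdd.injective
            omega
          rw [if_neg hgh, if_neg hne]
          simp
      rw [Finset.sum_congr rfl h3, Finset.sum_ite_eq']
      by_cases hm : h ∈ x.coeff.support
      · rw [if_pos hm]
      · rw [if_neg hm]
        have : x.coeff h = 0 := by simpa using hm
        simp [this]
    · intro g _
      apply Continuous.intervalIntegrable
      fun_prop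
  have h5 : ‖∫ θ in (0 : ℝ)..(2 * Real.pi), ev φ θ x *
      Complex.exp (((-(Multiplicative.toAdd (φ h)) : ℤ) : ℂ) * Complex.I * (θ : ℂ))‖ ≤
      δ * |2 * Real.pi - 0| := by
    apply intervalIntegral.norm_integral_le_of_norm_le_const
    intro θ _
    rw [norm_mul]
    have h6 : ‖Complex.exp (((-(Multiplicative.toAdd (φ h)) : ℤ) : ℂ) * Complex.I * (θ : ℂ))‖
        = 1 := by
      have h7 : ((-(Multiplicative.toAdd (φ h)) : ℤ) : ℂ) * Complex.I * (θ : ℂ) =
          (((-(Multiplicative.toAdd (φ h)) : ℤ) * θ : ℝ) : ℂ) * Complex.I := by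
        push_cast; ring
      rw [h7]
      exact Complex.norm_exp_ofReal_mul_I _
    rw [h6, mul_one]
    exact hx θ
  rw [h1, norm_mul] at h5
  have h8 : ‖(2 * (Real.pi : ℂ))‖ = 2 * Real.pi := by
    rw [norm_mul, Complex.norm_real, Real.norm_of_nonneg Real.pi_pos.le]
    simp
  rw [h8, sub_zero, abs_of_pos (by positivity)] at h5
  have h9 : 0 < 2 * Real.pi := by positivity
  exact le_of_mul_le_mul_right h5 h9

/-- If `u ^ 2` is close to `v ^ 2` at all characters, then `u` is close to `v` or to `-v`. -/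
lemma exists_sign {φ : H →* Multiplicative ℤ} {u v : MonoidAlgebra ℂ H} {η c : ℝ} (hc : 0 < c)
    (hη : η < c ^ 2) (h1 : ∀ θ, ‖ev φ θ (u ^ 2 - v ^ 2)‖ ≤ η) (h2 : ∀ θ, c ≤ ‖ev φ θ v‖) :
    ∃ ε : ℂ, (ε = 1 ∨ ε = -1) ∧ ∀ θ, ‖ev φ θ (u - ε • v)‖ ≤ η / c := by
  have hv : ∀ θ, ev φ θ v ≠ 0 := fun θ h => by
    have := h2 θ
    rw [h, norm_zero] at this
    linarith
  have hη0 : 0 ≤ η := (norm_nonneg _).trans (h1 0)
  set w : ℝ → ℂ := fun θ => ev φ θ u / ev φ θ v with hw
  have hwc : Continuous w := (continuous_ev φ u).div (continuous_ev φ v) hv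
  have hwu : ∀ θ, ev φ θ u = w θ * ev φ θ v := fun θ => by
    rw [hw]; field_simp [hv θ]
  have hws : ∀ θ, ‖w θ ^ 2 - 1‖ * ‖ev φ θ v‖ ^ 2 ≤ η := by
    intro θ
    have h3 := h1 θ
    rw [map_sub, map_pow, map_pow, hwu θ] at h3
    have h4 : (w θ * ev φ θ v) ^ 2 - ev φ θ v ^ 2 = (w θ ^ 2 - 1) * ev φ θ v ^ 2 := by ring
    rw [h4, norm_mul, norm_pow] at h3
    exact h3
  have hws1 : ∀ θ, ‖w θ ^ 2 - 1‖ < 1 := by
    intro θ
    have h3 := hws θ
    have h4 : c ^ 2 ≤ ‖ev φ θ v‖ ^ 2 := pow_le_pow_left₀ hc.le (h2 θ) 2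
    by_contra h5
    push Not at h5
    nlinarith [sq_nonneg c]
  have hre : ∀ θ, (w θ).re ≠ 0 := by
    intro θ h3
    have h4 := hws1 θ
    have h5 : w θ ^ 2 - 1 = ((-((w θ).im ^ 2 + 1) : ℝ) : ℂ) := by
      apply Complex.ext
      · simp [pow_two, h3]; ring
      · simp [pow_two, h3]
    rw [h5, Complex.norm_real, Real.norm_eq_abs, abs_neg, abs_of_nonneg (by positivity)] at h4
    nlinarith [sq_nonneg (w θ).im]
  have hsign : (∀ θ, 0 < (w θ).re) ∨ (∀ θ, (w θ).re < 0) := by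
    by_contra hcon
    push Not at hcon
    obtain ⟨⟨a, ha⟩, ⟨b, hb⟩⟩ := hcon
    have h3 : (0 : ℝ) ∈ Set.range fun θ => (w θ).re :=
      mem_range_of_exists_le_of_exists_ge (Complex.continuous_re.comp hwc) ⟨a, ha⟩ ⟨b, hb⟩
    obtain ⟨θ, h4⟩ := h3
    exact hre θ h4
  have main : ∀ ε : ℂ, (ε = 1 ∨ ε = -1) → (∀ θ, 1 ≤ ‖w θ + ε‖) →
      ∀ θ, ‖ev φ θ (u - ε • v)‖ ≤ η / c := by
    intro ε hε h3 θ
    have hεε : ε ^ 2 = 1 := by rcases hε with h | h <;> rw [h] <;> norm_num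
    rw [map_sub, map_smul, hwu θ, smul_eq_mul, ← sub_mul, norm_mul]
    have h4 : ‖w θ - ε‖ ≤ ‖w θ ^ 2 - 1‖ := by
      have h5 : w θ ^ 2 - 1 = (w θ - ε) * (w θ + ε) := by rw [← hεε]; ring
      rw [h5, norm_mul]
      exact le_mul_of_one_le_right (norm_nonneg _) (h3 θ)
    rw [le_div_iff₀ hc]
    calc ‖w θ - ε‖ * ‖ev φ θ v‖ * c ≤ ‖w θ ^ 2 - 1‖ * ‖ev φ θ v‖ * ‖ev φ θ v‖ := by
          gcongr
          exact h2 θ
      _ = ‖w θ ^ 2 - 1‖ * ‖ev φ θ v‖ ^ 2 := by ring
      _ ≤ η := hws θ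
  rcases hsign with h | h
  · refine ⟨1, Or.inl rfl, main 1 (Or.inl rfl) fun θ => ?_⟩
    have h3 : (w θ + 1).re ≤ ‖w θ + 1‖ := Complex.re_le_norm _
    have h4 := h θ
    simp only [Complex.add_re, Complex.one_re] at h3
    linarith
  · refine ⟨-1, Or.inr rfl, main (-1) (Or.inr rfl) fun θ => ?_⟩
    have h3 : |(w θ + -1).re| ≤ ‖w θ + -1‖ := Complex.abs_re_le_norm _
    have h4 := h θ
    have h5 : -(w θ + -1).re ≤ |(w θ + -1).re| := neg_le_abs _
    simp only [Complex.add_re, Complex.neg_re, Complex.one_re] at h3 h5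
    linarith

end Pool.Agent.Y84.GP
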