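import Pool.Agent.Y84.GP.Root

/-!
Finitely generated torsion-free commutative subgroups are residually `ℤ`.
-/

set_option autoImplicit false

namespace Pool.Agent.Y84.GP

open Polynomial

universe u

theorem fullZ_comm (H : Type u) [CommGroup H] [Group.FG H]
    (ht : ∀ x : H, IsOfFinOrder x → x = 1) : FullZ H := by
  classical
  intro F
  have : IsMulTorsionFree H := IsMulTorsionFree.of_not_isOfFinOrder fun x hx hfin => hx (ht x hfin)
  have : Module.Finite ℤ (Additive H) := by
    rw [Module.Finite.iff_addGroup_fg]
    infer_instance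
  have : IsAddTorsionFree (Additive H) := inferInstance
  have : Module.Free ℤ (Additive H) := Module.free_of_finite_type_torsion_free'
  set b := Module.Free.chooseBasis ℤ (Additive H) with hb
  let e := Fintype.equivFin (Module.Free.ChooseBasisIndex ℤ (Additive H))
  let P : Additive H → ℤ[X] := fun x => ∑ i, Polynomial.monomial (e i : ℕ) (b.repr x i)
  have hPadd : ∀ x y, P (x + y) = P x + P y := by
    intro x y
    simp only [P]
    rw [← Finset.sum_add_distrib]
    refine Finset.sum_congr rfl fun i _ => ?_
    rw [map_add, Finsupp.add_apply, map_add]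
  have hP0 : ∀ x, P x = 0 → x = 0 := by
    intro x hx
    have h1 : b.repr x = 0 := by
      ext i
      have h2 : (P x).coeff (e i : ℕ) = b.repr x i := by
        simp only [P]
        rw [Polynomial.finsetSum_coeff]
        rw [Finset.sum_eq_single i]
        · rw [Polynomial.coeff_monomial, if_pos rfl]
        · intro j _ hj
          rw [Polynomial.coeff_monomial, if_neg]
          intro h3
          exact hj (e.injective (Fin.ext h3))
        · intro h3
          exact absurd (Finset.mem_univ i) h3
      rw [← h2, hx]
      simp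
    exact (LinearEquiv.map_eq_zero_iff b.repr).mp h1
  have hPsub : ∀ x y, P x = P y → x = y := by
    intro x y hxy
    have h1 : P (x - y) = 0 := by
      have h2 := hPadd (x - y) y
      rw [sub_add_cancel, hxy] at h2
      have h3 : P (x - y) + P y = 0 + P y := by rw [← h2, zero_add]
      exact add_right_cancel h3
    exact sub_eq_zero.mp (hP0 _ h1)
  let Q : ℤ[X] := ∏ z ∈ (F ×ˢ F).filter (fun z => z.1 ≠ z.2),
    (P (Additive.ofMul z.1) - P (Additive.ofMul z.2))
  have hQ : Q ≠ 0 := by
    rw [Finset.prod_ne_zero_iff]
    intro z hz h0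
    have h1 := (Finset.mem_filter.mp hz).2
    exact h1 (Additive.ofMul.injective (hPsub _ _ (sub_eq_zero.mp h0)))
  have hB : ∃ B : ℤ, Q.eval B ≠ 0 := by
    by_contra hcon
    push Not at hcon
    apply hQ
    apply Polynomial.funext
    intro r
    rw [hcon r, Polynomial.eval_zero]
  obtain ⟨B, hB⟩ := hB
  refine ⟨{ toFun := fun x => Multiplicative.ofAdd ((P (Additive.ofMul x)).eval B)
            map_one' := ?_
            map_mul' := ?_ }, ?_⟩
  · have h1 : P (Additive.ofMul (1 : H)) = 0 := by
      simp only [P]
      rw [ofMul_one, map_zero]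
      simp
    rw [h1]
    simp
  · intro x y
    rw [ofMul_mul, hPadd, Polynomial.eval_add, ofAdd_add]
  · intro x hx y hy hxy
    by_contra hne
    have h1 : (P (Additive.ofMul x)).eval B = (P (Additive.ofMul y)).eval B :=
      Multiplicative.ofAdd.injective hxy
    have h2 : Q.eval B = 0 := by
      simp only [Q]
      rw [Polynomial.eval_prod]
      apply Finset.prod_eq_zero (i := (x, y))
      · rw [Finset.mem_filter, Finset.mem_product]
        exact ⟨⟨hx, hy⟩, hne⟩
      · rw [Polynomial.eval_sub, h1, sub_self]
    exact hB h2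

theorem fullZ_subgroup {G : Type u} [Group G] (A : Subgroup G) (hfg : A.FG)
    (hc : ∀ x ∈ A, ∀ y ∈ A, x * y = y * x) (ht : ∀ x ∈ A, IsOfFinOrder x → x = 1) :
    FullZ A := by
  let _ : CommGroup A :=
    { (inferInstance : Group A) with
      mul_comm := fun x y => Subtype.ext (hc x x.2 y y.2) }
  have : Group.FG A := (Group.fg_iff_subgroup_fg A).mpr hfg
  refine fullZ_comm A ?_
  intro x hx
  have h1 : IsOfFinOrder (x : G) := by
    obtain ⟨n, hn, h2⟩ := isOfFinOrder_iff_pow_eq_one.mp hx
    rw [isOfFinOrder_iff_pow_eq_one]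
    refine ⟨n, hn, ?_⟩
    have h3 := congrArg Subtype.val h2
    simpa using h3
  exact Subtype.ext (ht x x.2 h1)

end Pool.Agent.Y84.GP
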