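import Pool.Agent.Y84.GP.Main

/-!
The bounds for idempotents.
-/

set_option autoImplicit false

namespace Pool.Agent.Y84.GP

open MonoidAlgebra

universe u

variable {G : Type u} [Group G]

open Classical in
theorem idem_bounds (e : MonoidAlgebra ℂ G) (he : e * e = e) (he0 : e ≠ 0) (he1 : e ≠ 1) :
    (∀ A : Subgroup G, (∀ x ∈ A, ∀ y ∈ A, x * y = y * x) →
      (∀ x ∈ A, IsOfFinOrder x → x = 1) →
      1 / 2 ≤ ∑ g ∈ e.coeff.support with g ∉ A, ‖e.coeff g‖) ∧
    ((∀ g : G, IsOfFinOrder g → g = 1) →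
      5 / 6 ≤ ∑ g ∈ e.coeff.support with g ≠ 1, ‖e.coeff g‖ ∧
      2 ≤ ‖2 * e.coeff 1 - 1‖ + 2 * ∑ g ∈ e.coeff.support with g ≠ 1, ‖e.coeff g‖) := by
  set f : MonoidAlgebra ℂ G := (2 : ℂ) • e - 1 with hf0
  have hf : f * f = 1 := by
    rw [hf0, sub_mul, mul_sub, smul_mul_smul_comm, he]
    simp only [one_mul, mul_one]
    module
  have h1 : f ≠ 1 := by
    intro h
    apply he1
    have h2 : (2 : ℂ) • e = (2 : ℂ) • (1 : MonoidAlgebra ℂ G) := by
      rw [two_smul ℂ (1 : MonoidAlgebra ℂ G), ← sub_eq_iff_eq_add]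
      exact h
    have h3 := congrArg (fun x => (1 / 2 : ℂ) • x) h2
    simpa [smul_smul] using h3
  have h2 : f ≠ -1 := by
    intro h
    apply he0
    have h2 : (2 : ℂ) • e = 0 := by
      have h3 : (2 : ℂ) • e = f + 1 := by rw [hf0]; abel
      rw [h3, h]
      simp
    have h3 := congrArg (fun x => (1 / 2 : ℂ) • x) h2
    simpa [smul_smul] using h3
  have hcoef : ∀ g : G, g ≠ 1 → f.coeff g = 2 * e.coeff g := by
    intro g hg
    rw [hf0, coeff_sub, Finsupp.sub_apply, coeff_smul_apply, smul_eq_mul, one_def, coeff_single,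
      Finsupp.single_eq_of_ne hg, sub_zero]
  have hcoef1 : f.coeff 1 = 2 * e.coeff 1 - 1 := by
    rw [hf0, coeff_sub, Finsupp.sub_apply, coeff_smul_apply, smul_eq_mul, one_def, coeff_single,
      Finsupp.single_eq_same]
  have hmass : ∀ (p : G → Prop) [DecidablePred p], ¬ p 1 → mass f p = 2 * mass e p := by
    intro p _ hp
    rw [← nm_part, ← nm_part]
    have h3 : part f p = (2 : ℂ) • part e p := by
      ext g
      rw [coeff_smul_apply, part_coeff, part_coeff, smul_eq_mul]
      split_ifs with h4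
      · exact hcoef g (fun h5 => hp (h5 ▸ h4))
      · simp
    rw [h3, nm_smul]
    norm_num
  constructor
  · intro A hc ht
    have h3 := one_le_mass hf h1 h2 A hc ht
    rw [hmass (fun g => g ∉ A) (fun h => h A.one_mem)] at h3
    unfold mass at h3
    linarith
  · intro hG
    obtain ⟨h3, h4⟩ := bounds hG hf h1 h2
    have h5 : nm (off f) = 2 * mass e (fun g => g ≠ 1) := by
      unfold off
      rw [nm_part]
      exact hmass (fun g => g ≠ 1) (fun h => h rfl)
    rw [h5] at h3 h4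
    rw [hcoef1] at h4
    unfold mass at h3 h4
    exact ⟨by linarith, h4⟩

end Pool.Agent.Y84.GP
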