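import Pool.Agent.Y84.GP.Full

/-!
Lower bounds for the absolute values of the coefficients of the elements `f` with `f ^ 2 = 1` and of
the idempotents of a complex group algebra.
-/

set_option autoImplicit false

namespace Pool.Agent.Y84.GP

open MonoidAlgebra

universe u

variable {G : Type u} [Group G]

lemma coeff_mul_eq_zero {x y : MonoidAlgebra ℂ G} {h : G}
    (hxy : ∀ a ∈ x.coeff.support, ∀ b ∈ y.coeff.support, a * b ≠ h) : (x * y).coeff h = 0 := by
  classical
  rw [coeff_mul, Finsupp.sum]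
  refine Finset.sum_eq_zero fun a ha => ?_
  rw [Finsupp.sum]
  refine Finset.sum_eq_zero fun b hb => ?_
  rw [if_neg (hxy a ha b hb)]

/-! ### The mass off the identity -/

lemma one_add_smul_coeff (c d : ℂ) (x : MonoidAlgebra ℂ G) (g : G) (hg : g ≠ 1) :
    (c • (1 : MonoidAlgebra ℂ G) + d • x).coeff g = d * x.coeff g := by
  rw [coeff_add, Finsupp.add_apply, coeff_smul_apply, coeff_smul_apply, one_def, coeff_single,
    Finsupp.single_eq_of_ne hg, smul_eq_mul, smul_eq_mul, mul_zero, zero_add]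

lemma one_add_smul_coeff_one (c d : ℂ) (x : MonoidAlgebra ℂ G) (hx : x.coeff 1 = 0) :
    (c • (1 : MonoidAlgebra ℂ G) + d • x).coeff 1 = c := by
  rw [coeff_add, Finsupp.add_apply, coeff_smul_apply, coeff_smul_apply, one_def, coeff_single,
    Finsupp.single_eq_same, smul_eq_mul, smul_eq_mul, hx, mul_zero, add_zero, mul_one]

lemma nm_one_add_smul (c d : ℂ) (x : MonoidAlgebra ℂ G) (hx : x.coeff 1 = 0) :
    ‖c‖ + ‖d‖ * nm x ≤ nm (c • (1 : MonoidAlgebra ℂ G) + d • x) := by
  classical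
  set y := c • (1 : MonoidAlgebra ℂ G) + d • x with hy
  have h1 : y.coeff.support ⊆ y.coeff.support ∪ insert 1 x.coeff.support :=
    Finset.subset_union_left
  rw [nm_eq h1]
  have h2 : insert 1 x.coeff.support ⊆ y.coeff.support ∪ insert 1 x.coeff.support :=
    Finset.subset_union_right
  refine le_trans ?_ (Finset.sum_le_sum_of_subset_of_nonneg h2 fun _ _ _ => norm_nonneg _)
  have h3 : (1 : G) ∉ x.coeff.support := by simpa using hx
  rw [Finset.sum_insert h3, hy, one_add_smul_coeff_one c d x hx]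
  refine add_le_add le_rfl ?_
  unfold nm
  rw [Finset.mul_sum]
  refine Finset.sum_le_sum fun g hg => ?_
  have h4 : g ≠ 1 := fun h => h3 (h ▸ hg)
  rw [one_add_smul_coeff c d x g h4, norm_mul]

section

variable [DecidableEq G]

/-- The part of `f` off the identity. -/
noncomputable def off (f : MonoidAlgebra ℂ G) : MonoidAlgebra ℂ G := part f (fun g => g ≠ 1)

omit [Group G] in
lemma off_coeff [One G] (f : MonoidAlgebra ℂ G) (g : G) :
    (part f (fun g => g ≠ 1)).coeff g = if g ≠ 1 then f.coeff g else 0 := part_coeff f _ g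

lemma eq_add_off (f : MonoidAlgebra ℂ G) : f = f.coeff 1 • 1 + (1 : ℂ) • off f := by
  ext g
  by_cases hg : g = 1
  · subst hg
    rw [one_add_smul_coeff_one]
    unfold off
    rw [part_coeff]
    simp
  · rw [one_add_smul_coeff _ _ _ _ hg, one_mul]
    unfold off
    rw [part_coeff, if_pos hg]

lemma off_one (f : MonoidAlgebra ℂ G) : (off f).coeff 1 = 0 := by
  unfold off
  rw [part_coeff]
  simp

lemma off_sq {f : MonoidAlgebra ℂ G} (hf : f * f = 1) :
    off f * off f = (1 - f.coeff 1 ^ 2) • (1 : MonoidAlgebra ℂ G) +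
      (-(2 * f.coeff 1)) • off f := by
  have h1 := eq_add_off f
  set a := f.coeff 1 with ha
  set s := off f with hs
  have h2 : off f = f - a • 1 := by
    rw [← hs]
    have h3 : f - a • (1 : MonoidAlgebra ℂ G) = (a • 1 + (1 : ℂ) • s) - a • 1 := by
      rw [← h1]
    rw [h3, one_smul]
    abel
  rw [← hs] at h2
  rw [h2]
  have h3 : (f - a • (1 : MonoidAlgebra ℂ G)) * (f - a • 1) =
      f * f - a • f - a • f + (a * a) • (1 : MonoidAlgebra ℂ G) := by
    rw [sub_mul, mul_sub, mul_sub]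
    simp only [mul_smul_comm, smul_mul_assoc, mul_one, one_mul, smul_smul]
    abel
  rw [h3, hf]
  module

lemma ineq_one {f : MonoidAlgebra ℂ G} (hf : f * f = 1) :
    ‖1 - f.coeff 1 ^ 2‖ + 2 * ‖f.coeff 1‖ * nm (off f) ≤ nm (off f) ^ 2 := by
  have h1 := nm_one_add_smul (1 - f.coeff 1 ^ 2) (-(2 * f.coeff 1)) (off f) (off_one f)
  rw [← off_sq hf] at h1
  have h2 := nm_mul (off f) (off f)
  rw [norm_neg, norm_mul] at h1
  have h3 : ‖(2 : ℂ)‖ = 2 := by norm_num
  rw [h3] at h1
  rw [pow_two (nm (off f))]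
  exact h1.trans h2

lemma norm_one_sub_sq (z : ℂ) : 1 - ‖z‖ ^ 2 ≤ ‖1 - z ^ 2‖ := by
  have h1 := norm_sub_norm_le (1 : ℂ) (z ^ 2)
  rw [norm_one, norm_pow] at h1
  exact h1

/-- The mass of `f` off the identity is at least `1 + |f(1)|`. -/
lemma one_add_le {f : MonoidAlgebra ℂ G} (hf : f * f = 1) (h1 : f ≠ 1) (h2 : f ≠ -1) :
    1 + ‖f.coeff 1‖ ≤ nm (off f) := by
  set a := ‖f.coeff 1‖ with ha
  set X := nm (off f) with hX
  have hX0 : 0 ≤ X := nm_nonneg _
  have ha0 : 0 ≤ a := norm_nonneg _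
  have h3 := ineq_one hf
  rw [← ha, ← hX] at h3
  have h4 := norm_one_sub_sq (f.coeff 1)
  rw [← ha] at h4
  have hXpos : 0 < X := by
    rcases hX0.lt_or_eq with h | h
    · exact h
    · exfalso
      have h5 : off f = 0 := nm_eq_zero h.symm
      have h6 := eq_add_off f
      rw [h5, smul_zero, add_zero] at h6
      have h7 : f.coeff 1 ^ 2 = 1 := by
        have h8 := hf
        rw [h6] at h8
        have h9 := congrArg (fun x : MonoidAlgebra ℂ G => x.coeff 1) h8
        simp only [smul_mul_smul_comm, mul_one, coeff_one_one, coeff_smul] at h9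
        simp only [Finsupp.smul_apply, coeff_one_one, smul_eq_mul, mul_one] at h9
        rw [pow_two]
        exact h9
      have h10 : (f.coeff 1 - 1) * (f.coeff 1 + 1) = 0 := by linear_combination h7
      rcases mul_eq_zero.mp h10 with h8 | h8
      · rw [sub_eq_zero.mp h8, one_smul] at h6
        exact h1 h6
      · rw [eq_neg_of_add_eq_zero_left h8, neg_smul, one_smul] at h6
        exact h2 h6
  have h5 : 0 ≤ ‖1 - f.coeff 1 ^ 2‖ := norm_nonneg _
  by_contra hcon
  push Not at hcon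
  by_cases ha1 : a ≤ 1
  · have h6 : 1 ≤ (X - a) ^ 2 := by nlinarith
    have h7 : -1 < X - a := by linarith
    have h8 : X - a < 1 := by linarith
    nlinarith
  · push Not at ha1
    nlinarith

end

/-! ### The mass off a subgroup -/

/-- The restriction of `f` to the subgroup `A`. -/
noncomputable def res (A : Subgroup G) (f : MonoidAlgebra ℂ G) : MonoidAlgebra ℂ A :=
  ofCoeff (f.coeff.comapDomain Subtype.val Subtype.val_injective.injOn)

lemma res_coeff (A : Subgroup G) (f : MonoidAlgebra ℂ G) (h : A) :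
    (res A f).coeff h = f.coeff h := rfl

/-- The inclusion of the group algebra of a subgroup. -/
noncomputable def incl (A : Subgroup G) : MonoidAlgebra ℂ A →ₐ[ℂ] MonoidAlgebra ℂ G :=
  mapDomainAlgHom ℂ ℂ A.subtype

lemma incl_coeff (A : Subgroup G) (x : MonoidAlgebra ℂ A) (h : A) :
    (incl A x).coeff h = x.coeff h := by
  change (Finsupp.mapDomain (A.subtype) x.coeff) (A.subtype h) = x.coeff h
  exact Finsupp.mapDomain_apply Subtype.val_injective _ _

lemma incl_coeff_of_notMem (A : Subgroup G) (x : MonoidAlgebra ℂ A) (g : G) (hg : g ∉ A) :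
    (incl A x).coeff g = 0 := by
  change (Finsupp.mapDomain (A.subtype) x.coeff) g = 0
  apply Finsupp.mapDomain_of_notMem_range
  rintro ⟨h, rfl⟩
  exact hg h.2

open Classical in
lemma incl_res (A : Subgroup G) (f : MonoidAlgebra ℂ G) :
    incl A (res A f) = part f (fun g => g ∈ A) := by
  ext g
  rw [part_coeff]
  split_ifs with h
  · have := incl_coeff A (res A f) ⟨g, h⟩
    rw [res_coeff] at this
    exact this
  · exact incl_coeff_of_notMem A _ g h

open Classical in
lemma coeff_one_sub_res {f : MonoidAlgebra ℂ G} (hf : f * f = 1) (A : Subgroup G) (h : A) :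
    (1 - res A f * res A f).coeff h =
      (part f (fun g => g ∉ A) * part f (fun g => g ∉ A)).coeff h := by
  set p := part f (fun g => g ∈ A) with hp
  set r := part f (fun g => g ∉ A) with hr
  have h1 : p + r = f := part_add f (fun g => g ∈ A)
  have h2 : p * p + p * r + r * p + r * r = 1 := by
    rw [← hf, ← h1]
    noncomm_ring
  have hpA : ∀ a ∈ p.coeff.support, a ∈ A := by
    intro a ha
    by_contra hcon
    rw [Finsupp.mem_support_iff, hp, part_coeff, if_neg hcon] at ha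
    exact ha rfl
  have hrA : ∀ a ∈ r.coeff.support, a ∉ A := by
    intro a ha hcon
    rw [Finsupp.mem_support_iff, hr, part_coeff, if_neg (not_not.mpr hcon)] at ha
    exact ha rfl
  have h3 : (p * r).coeff h = 0 := coeff_mul_eq_zero fun a ha b hb hab => by
    apply hrA b hb
    have : b = a⁻¹ * h := by rw [← hab]; group
    rw [this]
    exact A.mul_mem (A.inv_mem (hpA a ha)) h.2
  have h4 : (r * p).coeff h = 0 := coeff_mul_eq_zero fun a ha b hb hab => by
    apply hrA a ha
    have : a = h * b⁻¹ := by rw [← hab]; group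
    rw [this]
    exact A.mul_mem h.2 (A.inv_mem (hpA b hb))
  have h5 : (p * p).coeff h = (res A f * res A f).coeff h := by
    rw [hp, ← incl_res, ← map_mul, incl_coeff]
  have h6 : (1 : MonoidAlgebra ℂ G).coeff h = (1 : MonoidAlgebra ℂ A).coeff h := by
    rw [← map_one (incl A), incl_coeff]
  have h7 := congrArg (fun x : MonoidAlgebra ℂ G => x.coeff h) h2
  simp only [coeff_add, Finsupp.add_apply] at h7
  rw [h3, h4, h5, h6] at h7
  rw [coeff_sub, Finsupp.sub_apply, ← h7]
  ring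

open Classical in
lemma nm_one_sub_res {f : MonoidAlgebra ℂ G} (hf : f * f = 1) (A : Subgroup G) :
    nm (1 - res A f * res A f) ≤ mass f (fun g => g ∉ A) ^ 2 := by
  set r := part f (fun g => g ∉ A) with hr
  have h1 := nm_mul r r
  rw [nm_part] at h1
  rw [pow_two]
  refine le_trans ?_ h1
  set y := 1 - res A f * res A f with hy
  have h2 : (r * r).coeff.support ⊆ (r * r).coeff.support ∪
      y.coeff.support.map ⟨Subtype.val, Subtype.val_injective⟩ := Finset.subset_union_left
  rw [nm_eq h2]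
  unfold nm
  have h3 : ∑ h ∈ y.coeff.support, ‖y.coeff h‖ =
      ∑ g ∈ y.coeff.support.map ⟨Subtype.val, Subtype.val_injective⟩, ‖(r * r).coeff g‖ := by
    rw [Finset.sum_map]
    refine Finset.sum_congr rfl fun h _ => ?_
    rw [hy, coeff_one_sub_res hf A h]
    rfl
  rw [h3]
  exact Finset.sum_le_sum_of_subset_of_nonneg Finset.subset_union_right
    fun _ _ _ => norm_nonneg _

open Classical in
/-- The mass of `f` off the identity, computed with a subgroup. -/
lemma nm_off_eq (f : MonoidAlgebra ℂ G) (A : Subgroup G) :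
    nm (off f) = (∑ h ∈ (res A f).coeff.support.erase 1, ‖(res A f).coeff h‖) +
      mass f (fun g => g ∉ A) := by
  unfold off
  rw [nm_part]
  unfold mass
  rw [← Finset.sum_filter_add_sum_filter_not (f.coeff.support.filter (fun g => g ≠ 1))
    (fun g => g ∈ A)]
  congr 1
  · symm
    refine Finset.sum_bij (fun h _ => (h : G)) ?_ ?_ ?_ ?_
    · intro h hh
      rw [Finset.mem_erase, Finsupp.mem_support_iff, res_coeff] at hh
      rw [Finset.mem_filter, Finset.mem_filter, Finsupp.mem_support_iff]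
      refine ⟨⟨hh.2, ?_⟩, h.2⟩
      intro h1
      exact hh.1 (Subtype.ext h1)
    · intro a _ b _ hab
      exact Subtype.ext hab
    · intro g hg
      rw [Finset.mem_filter, Finset.mem_filter, Finsupp.mem_support_iff] at hg
      refine ⟨⟨g, hg.2⟩, ?_, rfl⟩
      rw [Finset.mem_erase, Finsupp.mem_support_iff, res_coeff]
      refine ⟨?_, hg.1.1⟩
      intro h1
      exact hg.1.2 (congrArg Subtype.val h1)
    · intro h _
      rfl
  · refine Finset.sum_congr ?_ fun _ _ => rfl
    ext g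
    rw [Finset.mem_filter, Finset.mem_filter, Finset.mem_filter]
    constructor
    · rintro ⟨⟨h1, -⟩, h2⟩
      exact ⟨h1, h2⟩
    · rintro ⟨h1, h2⟩
      exact ⟨⟨h1, fun h3 => h2 (h3 ▸ A.one_mem)⟩, h2⟩

open Classical in
/-- The mass of `f` off a subgroup which is residually `ℤ`. -/
lemma one_le_mass_full {f : MonoidAlgebra ℂ G} (hf : f * f = 1) (h1 : f ≠ 1) (h2 : f ≠ -1)
    (A : Subgroup G) (hA : FullZ A) : 1 ≤ mass f (fun g => g ∉ A) := by
  by_contra hcon
  push Not at hcon
  set ρ := mass f (fun g => g ∉ A) with hρ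
  have hρ0 : 0 ≤ ρ := Finset.sum_nonneg fun _ _ => norm_nonneg _
  have hq : ρ ^ 2 < 1 := by nlinarith
  set s : ℝ := 1 - Real.sqrt (1 - ρ ^ 2) with hs
  have hsq : Real.sqrt (1 - ρ ^ 2) ^ 2 = 1 - ρ ^ 2 := Real.sq_sqrt (by linarith)
  have hspos : 0 < Real.sqrt (1 - ρ ^ 2) := Real.sqrt_pos.mpr (by linarith)
  have hsle : Real.sqrt (1 - ρ ^ 2) ≤ 1 := by
    rw [Real.sqrt_le_one]
    nlinarith
  obtain ⟨ε, hε, h3⟩ := root_near hA (nm_one_sub_res hf A) (s := s) (by rw [hs]; linarith)
    (by rw [hs]; linarith) (by rw [hs]; nlinarith)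
  have h4 := one_add_le hf h1 h2
  have h5 := nm_off_eq f A
  have h6 : 1 ≤ ‖f.coeff 1‖ + ‖(res A f).coeff 1 - ε‖ := by
    have h7 : ‖ε‖ = 1 := by rcases hε with h | h <;> rw [h] <;> simp
    have h8 : (res A f).coeff 1 = f.coeff 1 := res_coeff A f 1
    rw [h8]
    have h9 : ‖ε‖ ≤ ‖f.coeff 1‖ + ‖f.coeff 1 - ε‖ := by
      have h10 : ε = f.coeff 1 - (f.coeff 1 - ε) := by ring
      calc ‖ε‖ = ‖f.coeff 1 - (f.coeff 1 - ε)‖ := by rw [← h10]
        _ ≤ _ := norm_sub_le _ _
    linarith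
  linarith

open Classical in
/-- The mass of `f` off a commutative torsion-free subgroup is at least one. -/
theorem one_le_mass {f : MonoidAlgebra ℂ G} (hf : f * f = 1) (h1 : f ≠ 1) (h2 : f ≠ -1)
    (A : Subgroup G) (hc : ∀ x ∈ A, ∀ y ∈ A, x * y = y * x)
    (ht : ∀ x ∈ A, IsOfFinOrder x → x = 1) : 1 ≤ mass f (fun g => g ∉ A) := by
  set S : Finset G := f.coeff.support.filter (fun g => g ∈ A) with hS
  set B : Subgroup G := Subgroup.closure (S : Set G) with hB
  have hBA : B ≤ A := by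
    rw [hB, Subgroup.closure_le]
    intro g hg
    exact (Finset.mem_filter.mp hg).2
  have hfg : B.FG := ⟨S, hB.symm⟩
  have h3 := one_le_mass_full hf h1 h2 B (fullZ_subgroup B hfg
    (fun x hx y hy => hc x (hBA hx) y (hBA hy)) (fun x hx => ht x (hBA hx)))
  refine h3.trans (le_of_eq ?_)
  unfold mass
  refine Finset.sum_congr ?_ fun _ _ => rfl
  ext g
  rw [Finset.mem_filter, Finset.mem_filter]
  constructor
  · rintro ⟨h4, h5⟩
    refine ⟨h4, fun h6 => h5 ?_⟩
    exact Subgroup.subset_closure (Finset.mem_filter.mpr ⟨h4, h6⟩)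
  · rintro ⟨h4, h5⟩
    exact ⟨h4, fun h6 => h5 (hBA h6)⟩

open Classical in
/-- The coefficients at `g` and `g⁻¹`. -/
lemma pair_le {f : MonoidAlgebra ℂ G} (hG : ∀ g : G, IsOfFinOrder g → g = 1) (hf : f * f = 1)
    (h1 : f ≠ 1) (h2 : f ≠ -1) {g : G} (hg : g ≠ 1) :
    ‖f.coeff g‖ + ‖f.coeff g⁻¹‖ ≤ nm (off f) - 1 := by
  set A := Subgroup.zpowers g with hA
  have h3 := one_le_mass hf h1 h2 A (fun x hx y hy => by
      obtain ⟨m, rfl⟩ := Subgroup.mem_zpowers_iff.mp hx
      obtain ⟨n, rfl⟩ := Subgroup.mem_zpowers_iff.mp hy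
      rw [← zpow_add, ← zpow_add, add_comm]) (fun x _ => hG x)
  have h4 := nm_off_eq f A
  have hne : g ≠ g⁻¹ := by
    intro h
    apply hg
    apply hG
    rw [isOfFinOrder_iff_pow_eq_one]
    refine ⟨2, by norm_num, ?_⟩
    rw [pow_two]
    nth_rewrite 2 [h]
    group
  set x : A := ⟨g, Subgroup.mem_zpowers g⟩ with hx
  have hx1 : x ≠ 1 := fun h => hg (congrArg Subtype.val h)
  have hxi : x⁻¹ ≠ 1 := fun h => hx1 (inv_eq_one.mp h)
  have hxx : x ≠ x⁻¹ := fun h => hne (congrArg Subtype.val h)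
  set u := res A f with hu
  have h5 : ‖u.coeff x‖ + ‖u.coeff x⁻¹‖ ≤ ∑ h ∈ u.coeff.support.erase 1, ‖u.coeff h‖ := by
    have h6 : ∑ h ∈ u.coeff.support.erase 1, ‖u.coeff h‖ =
        ∑ h ∈ (insert x (insert x⁻¹ u.coeff.support)).erase 1, ‖u.coeff h‖ := by
      refine Finset.sum_subset ?_ ?_
      · intro h hh
        rw [Finset.mem_erase] at hh ⊢
        exact ⟨hh.1, Finset.mem_insert_of_mem (Finset.mem_insert_of_mem hh.2)⟩
      · intro h hh hh2
        rw [Finset.mem_erase] at hh hh2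
        have : u.coeff h = 0 := by
          by_contra hcon
          exact hh2 ⟨hh.1, Finsupp.mem_support_iff.mpr hcon⟩
        simp [this]
    rw [h6]
    have h7 : ∑ h ∈ ({x, x⁻¹} : Finset A), ‖u.coeff h‖ = ‖u.coeff x‖ + ‖u.coeff x⁻¹‖ :=
      Finset.sum_pair hxx
    rw [← h7]
    refine Finset.sum_le_sum_of_subset_of_nonneg ?_ fun _ _ _ => norm_nonneg _
    intro h hh
    rw [Finset.mem_insert, Finset.mem_singleton] at hh
    rw [Finset.mem_erase, Finset.mem_insert, Finset.mem_insert]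
    rcases hh with h8 | h8
    · rw [h8]; exact ⟨hx1, Or.inl rfl⟩
    · rw [h8]; exact ⟨hxi, Or.inr (Or.inl rfl)⟩
  have h8 : u.coeff x = f.coeff g := rfl
  have h9 : u.coeff x⁻¹ = f.coeff g⁻¹ := rfl
  rw [h8, h9] at h5
  linarith

open Classical in
lemma sum_inv_le (x : MonoidAlgebra ℂ G) :
    ∑ g ∈ x.coeff.support, ‖x.coeff g⁻¹‖ ≤ nm x := by
  have h1 : x.coeff.support ⊆ x.coeff.support ∪ x.coeff.support.image (fun g => g⁻¹) :=
    Finset.subset_union_left
  rw [nm_eq h1]
  have h2 : ∑ g ∈ x.coeff.support, ‖x.coeff g⁻¹‖ =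
      ∑ g ∈ x.coeff.support.image (fun g => g⁻¹), ‖x.coeff g‖ := by
    rw [Finset.sum_image (fun a _ b _ h => inv_injective h)]
  rw [h2]
  exact Finset.sum_le_sum_of_subset_of_nonneg Finset.subset_union_right
    fun _ _ _ => norm_nonneg _

open Classical in
lemma ineq_two {f : MonoidAlgebra ℂ G} (hG : ∀ g : G, IsOfFinOrder g → g = 1) (hf : f * f = 1)
    (h1 : f ≠ 1) (h2 : f ≠ -1) :
    2 * (1 - ‖f.coeff 1‖ ^ 2) ≤ nm (off f) * (nm (off f) - 1) := by
  set X := nm (off f) with hX
  set s := off f with hs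
  have h3 : (s * s).coeff 1 = 1 - f.coeff 1 ^ 2 := by
    rw [hs, off_sq hf, one_add_smul_coeff_one _ _ _ (off_one f)]
  have h4 : (s * s).coeff 1 = ∑ g ∈ s.coeff.support, s.coeff g * s.coeff g⁻¹ := by
    rw [coeff_mul_apply_left, Finsupp.sum]
    refine Finset.sum_congr rfl fun g _ => ?_
    rw [mul_one]
  have h5 : ‖(s * s).coeff 1‖ ≤ ∑ g ∈ s.coeff.support, (X - 1) / 4 *
      (‖s.coeff g‖ + ‖s.coeff g⁻¹‖) := by
    rw [h4]
    refine (norm_sum_le _ _).trans (Finset.sum_le_sum fun g hg => ?_)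
    rw [norm_mul]
    have hg1 : g ≠ 1 := by
      intro h
      rw [Finsupp.mem_support_iff, h, hs, off_one] at hg
      exact hg rfl
    have hsg : ∀ g : G, g ≠ 1 → s.coeff g = f.coeff g := by
      intro g hg
      rw [hs]
      unfold off
      rw [part_coeff, if_pos hg]
    have h6 := pair_le hG hf h1 h2 hg1
    rw [← hX, ← hsg g hg1, ← hsg g⁻¹ (inv_ne_one.mpr hg1)] at h6
    have h7 : 0 ≤ ‖s.coeff g‖ := norm_nonneg _
    have h8 : 0 ≤ ‖s.coeff g⁻¹‖ := norm_nonneg _
    nlinarith [sq_nonneg (‖s.coeff g‖ - ‖s.coeff g⁻¹‖)]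
  rw [h3, ← Finset.mul_sum, Finset.sum_add_distrib] at h5
  have h6 : ∑ g ∈ s.coeff.support, ‖s.coeff g‖ = X := rfl
  have h7 := sum_inv_le s
  rw [← hX] at h7
  rw [h6] at h5
  have h8 := norm_one_sub_sq (f.coeff 1)
  have h9 := one_add_le hf h1 h2
  rw [← hs, ← hX] at h9
  have h10 : 0 ≤ ‖f.coeff 1‖ := norm_nonneg _
  have h11 : (X - 1) / 4 * (X + ∑ g ∈ s.coeff.support, ‖s.coeff g⁻¹‖) ≤ (X - 1) / 4 * (X + X) :=
    mul_le_mul_of_nonneg_left (by linarith) (by linarith)
  nlinarith

open Classical in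
/-- The bounds for elements with square one. -/
theorem bounds {f : MonoidAlgebra ℂ G} (hG : ∀ g : G, IsOfFinOrder g → g = 1) (hf : f * f = 1)
    (h1 : f ≠ 1) (h2 : f ≠ -1) :
    5 / 3 ≤ nm (off f) ∧ 2 ≤ ‖f.coeff 1‖ + nm (off f) := by
  have h3 := one_add_le hf h1 h2
  have h4 := ineq_two hG hf h1 h2
  set a := ‖f.coeff 1‖ with ha
  set X := nm (off f) with hX
  have ha0 : 0 ≤ a := norm_nonneg _
  constructor
  · by_contra hcon
    push Not at hcon
    have h5 : a < 2 / 3 := by linarith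
    nlinarith
  · by_contra hcon
    push Not at hcon
    have h5 : X < 2 - a := by linarith
    have h6 : a < 1 / 2 := by linarith
    nlinarith

end Pool.Agent.Y84.GP
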