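import Mathlib

/-!
The sum of the absolute values of the coefficients of an element of a complex group algebra.
-/

set_option autoImplicit false

namespace Pool.Agent.Y84.GP

open MonoidAlgebra

universe u

variable {G : Type u}

/-- The sum of the absolute values of the coefficients. -/
noncomputable def nm (x : MonoidAlgebra ℂ G) : ℝ := ∑ g ∈ x.coeff.support, ‖x.coeff g‖

lemma nm_eq {x : MonoidAlgebra ℂ G} {s : Finset G} (hs : x.coeff.support ⊆ s) :
    nm x = ∑ g ∈ s, ‖x.coeff g‖ := by
  unfold nm
  refine Finset.sum_subset hs ?_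
  intro g _ hg
  have h1 : x.coeff g = 0 := by simpa using hg
  simp [h1]

lemma nm_nonneg (x : MonoidAlgebra ℂ G) : 0 ≤ nm x := Finset.sum_nonneg fun _ _ => norm_nonneg _

lemma nm_zero : nm (0 : MonoidAlgebra ℂ G) = 0 := by simp [nm]

lemma nm_single (g : G) (c : ℂ) : nm (single g c) = ‖c‖ := by
  classical
  have h1 : (single g c : MonoidAlgebra ℂ G).coeff.support ⊆ {g} := by
    intro h hh
    by_contra hne
    have h2 : h ≠ g := by simpa using hne
    have h3 : (single g c : MonoidAlgebra ℂ G).coeff h = 0 := by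
      rw [coeff_single]
      exact Finsupp.single_eq_of_ne h2
    rw [Finsupp.mem_support_iff] at hh
    exact hh h3
  rw [nm_eq h1]
  simp [coeff_single]

lemma nm_add (x y : MonoidAlgebra ℂ G) : nm (x + y) ≤ nm x + nm y := by
  classical
  have hx : x.coeff.support ⊆ x.coeff.support ∪ y.coeff.support := Finset.subset_union_left
  have hy : y.coeff.support ⊆ x.coeff.support ∪ y.coeff.support := Finset.subset_union_right
  have hxy : (x + y).coeff.support ⊆ x.coeff.support ∪ y.coeff.support := by
    rw [coeff_add]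
    exact Finsupp.support_add
  rw [nm_eq hx, nm_eq hy, nm_eq hxy, ← Finset.sum_add_distrib]
  refine Finset.sum_le_sum fun g _ => ?_
  rw [coeff_add, Finsupp.add_apply]
  exact norm_add_le _ _

lemma nm_smul (c : ℂ) (x : MonoidAlgebra ℂ G) : nm (c • x) = ‖c‖ * nm x := by
  classical
  have h1 : (c • x).coeff.support ⊆ x.coeff.support := by
    rw [coeff_smul]
    exact Finsupp.support_smul
  rw [nm_eq h1, nm, Finset.mul_sum]
  refine Finset.sum_congr rfl fun g _ => ?_
  rw [coeff_smul_apply, smul_eq_mul, norm_mul]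

lemma nm_neg (x : MonoidAlgebra ℂ G) : nm (-x) = nm x := by
  have h1 : -x = (-1 : ℂ) • x := by simp
  rw [h1, nm_smul]
  simp

lemma nm_sub (x y : MonoidAlgebra ℂ G) : nm (x - y) ≤ nm x + nm y := by
  rw [sub_eq_add_neg]
  exact (nm_add _ _).trans (by rw [nm_neg])

lemma nm_sum {ι : Type*} (s : Finset ι) (f : ι → MonoidAlgebra ℂ G) :
    nm (∑ i ∈ s, f i) ≤ ∑ i ∈ s, nm (f i) := by
  classical
  induction s using Finset.induction_on with
  | empty => simp [nm_zero]
  | insert a s ha ih =>
    rw [Finset.sum_insert ha, Finset.sum_insert ha]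
    exact (nm_add _ _).trans (by linarith)

lemma norm_coeff_le (x : MonoidAlgebra ℂ G) (g : G) : ‖x.coeff g‖ ≤ nm x := by
  classical
  have h1 : x.coeff.support ⊆ insert g x.coeff.support := Finset.subset_insert _ _
  rw [nm_eq h1]
  exact Finset.single_le_sum (f := fun g => ‖x.coeff g‖) (fun _ _ => norm_nonneg _)
    (Finset.mem_insert_self _ _)

lemma nm_eq_zero {x : MonoidAlgebra ℂ G} (h : nm x = 0) : x = 0 := by
  rw [← coeff_eq_zero]
  ext g
  have h1 := norm_coeff_le x g
  rw [h] at h1
  simpa using h1

/-- The mass of `x` on the elements satisfying `p`. -/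
noncomputable def mass (x : MonoidAlgebra ℂ G) (p : G → Prop) [DecidablePred p] : ℝ :=
  ∑ g ∈ x.coeff.support with p g, ‖x.coeff g‖

/-- The part of `x` supported in the set of the elements satisfying `p`. -/
noncomputable def part (x : MonoidAlgebra ℂ G) (p : G → Prop) [DecidablePred p] :
    MonoidAlgebra ℂ G := ofCoeff (x.coeff.filter p)

lemma part_coeff (x : MonoidAlgebra ℂ G) (p : G → Prop) [DecidablePred p] (g : G) :
    (part x p).coeff g = if p g then x.coeff g else 0 := by
  unfold part
  rw [coeff_ofCoeff, Finsupp.filter_apply]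

lemma nm_part (x : MonoidAlgebra ℂ G) (p : G → Prop) [DecidablePred p] :
    nm (part x p) = mass x p := by
  unfold nm mass
  have h1 : (part x p).coeff.support = x.coeff.support.filter p := by
    unfold part
    rw [coeff_ofCoeff, Finsupp.support_filter]
  rw [h1]
  refine Finset.sum_congr rfl fun g hg => ?_
  rw [part_coeff, if_pos (Finset.mem_filter.mp hg).2]

lemma part_add (x : MonoidAlgebra ℂ G) (p : G → Prop) [DecidablePred p] :
    part x p + part x (fun g => ¬ p g) = x := by
  ext g
  rw [coeff_add, Finsupp.add_apply, part_coeff, part_coeff]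
  by_cases h : p g <;> simp [h]

variable [Group G]

lemma nm_mul (x y : MonoidAlgebra ℂ G) : nm (x * y) ≤ nm x * nm y := by
  classical
  rw [mul_def, Finsupp.sum]
  refine (nm_sum _ _).trans ?_
  unfold nm
  rw [Finset.sum_mul]
  refine Finset.sum_le_sum fun g _ => ?_
  rw [Finsupp.sum]
  refine (nm_sum _ _).trans ?_
  rw [Finset.mul_sum]
  refine Finset.sum_le_sum fun h _ => ?_
  rw [nm_single, norm_mul]

lemma nm_one : nm (1 : MonoidAlgebra ℂ G) = 1 := by
  rw [one_def, nm_single]
  simp

end Pool.Agent.Y84.GP
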