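import Pool.Agent.Y84.GP.Char

/-!
The square roots of an element `1 - R` with small `R` in the complex group algebra of a group which
is residually `ℤ` are close to `1` or `-1`.
-/

set_option autoImplicit false

namespace Pool.Agent.Y84.GP

open MonoidAlgebra

universe u

variable {H : Type u} [Group H]

/-- Approximations of `1 - √(1 - R)`. -/
noncomputable def wseq (R : MonoidAlgebra ℂ H) : ℕ → MonoidAlgebra ℂ H
  | 0 => 0
  | n + 1 => (1 / 2 : ℂ) • (R + wseq R n * wseq R n)

lemma nm_half (x : MonoidAlgebra ℂ H) : nm ((1 / 2 : ℂ) • x) = nm x / 2 := by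
  rw [nm_smul]
  have : ‖(1 / 2 : ℂ)‖ = 1 / 2 := by norm_num
  rw [this]
  ring

lemma nm_wseq {R : MonoidAlgebra ℂ H} {q s : ℝ} (hR : nm R ≤ q) (hs0 : 0 ≤ s)
    (hs : q + s ^ 2 = 2 * s) (n : ℕ) : nm (wseq R n) ≤ s := by
  induction n with
  | zero => rw [wseq, nm_zero]; exact hs0
  | succ n ih =>
    rw [wseq, nm_half]
    have h1 := nm_add R (wseq R n * wseq R n)
    have h2 := nm_mul (wseq R n) (wseq R n)
    have h3 : nm (wseq R n) * nm (wseq R n) ≤ s * s :=
      mul_le_mul ih ih (nm_nonneg _) hs0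
    nlinarith

lemma nm_wseq_sub {R : MonoidAlgebra ℂ H} {q s : ℝ} (hR : nm R ≤ q) (hs0 : 0 ≤ s)
    (hs : q + s ^ 2 = 2 * s) (n : ℕ) : nm (wseq R (n + 1) - wseq R n) ≤ s ^ n * (q / 2) := by
  induction n with
  | zero =>
    have h1 : wseq R (0 + 1) - wseq R 0 = (1 / 2 : ℂ) • R := by
      simp [wseq]
    rw [h1, nm_half, pow_zero, one_mul]
    linarith
  | succ n ih =>
    have h1 : wseq R (n + 1 + 1) - wseq R (n + 1) = (1 / 2 : ℂ) •
        (wseq R (n + 1) * (wseq R (n + 1) - wseq R n) +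
          (wseq R (n + 1) - wseq R n) * wseq R n) := by
      have h2 : wseq R (n + 1 + 1) = (1 / 2 : ℂ) • (R + wseq R (n + 1) * wseq R (n + 1)) := rfl
      have h3 : wseq R (n + 1) = (1 / 2 : ℂ) • (R + wseq R n * wseq R n) := rfl
      have h4 : wseq R (n + 1 + 1) - wseq R (n + 1) =
          (1 / 2 : ℂ) • (wseq R (n + 1) * wseq R (n + 1) - wseq R n * wseq R n) := by
        rw [h2]
        nth_rewrite 3 [h3]
        rw [← smul_sub]
        congr 1
        abel
      rw [h4]
      congr 1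
      noncomm_ring
    rw [h1, nm_half]
    have h5 := nm_add (wseq R (n + 1) * (wseq R (n + 1) - wseq R n))
      ((wseq R (n + 1) - wseq R n) * wseq R n)
    have h6 := nm_mul (wseq R (n + 1)) (wseq R (n + 1) - wseq R n)
    have h7 := nm_mul (wseq R (n + 1) - wseq R n) (wseq R n)
    have h8 := nm_wseq hR hs0 hs (n + 1)
    have h9 := nm_wseq hR hs0 hs n
    have h10 := nm_nonneg (wseq R (n + 1) - wseq R n)
    have h11 : nm (wseq R (n + 1)) * nm (wseq R (n + 1) - wseq R n) ≤
        s * nm (wseq R (n + 1) - wseq R n) := mul_le_mul_of_nonneg_right h8 h10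
    have h12 : nm (wseq R (n + 1) - wseq R n) * nm (wseq R n) ≤
        nm (wseq R (n + 1) - wseq R n) * s := mul_le_mul_of_nonneg_left h9 h10
    have h13 : s * nm (wseq R (n + 1) - wseq R n) ≤ s * (s ^ n * (q / 2)) :=
      mul_le_mul_of_nonneg_left ih hs0
    calc _ ≤ s * nm (wseq R (n + 1) - wseq R n) := by linarith
      _ ≤ s * (s ^ n * (q / 2)) := h13
      _ = s ^ (n + 1) * (q / 2) := by ring

/-- The group is residually `ℤ`, in the strong sense. -/
def FullZ (H : Type u) [Group H] : Prop :=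
  ∀ F : Finset H, ∃ φ : H →* Multiplicative ℤ, Set.InjOn φ (F : Set H)

lemma root_approx [DecidableEq H] (hH : FullZ H) {u : MonoidAlgebra ℂ H} {q s : ℝ}
    (hu : nm (1 - u * u) ≤ q) (hs0 : 0 ≤ s) (hs1 : s < 1) (hs : q + s ^ 2 = 2 * s) {κ : ℝ}
    (hκ : 0 < κ) : ∃ ε : ℂ, (ε = 1 ∨ ε = -1) ∧
      (∑ h ∈ u.coeff.support.erase 1, ‖u.coeff h‖) + ‖u.coeff 1 - ε‖ ≤ s + κ := by
  classical
  set R := 1 - u * u with hR
  set c := 1 - s with hc
  have hc0 : 0 < c := by rw [hc]; linarith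
  have hq : 0 ≤ q := by nlinarith
  have hq1 : q ≤ 2 := by nlinarith
  -- choice of `n`
  set K : ℝ := (u.coeff.support.card + 2 : ℝ) with hK
  have hK0 : 0 < K := by positivity
  have hmin : 0 < min (c ^ 2) (κ * c / K) := lt_min (by positivity) (by positivity)
  obtain ⟨n, hn⟩ := exists_pow_lt_of_lt_one (show (0 : ℝ) < min (c ^ 2) (κ * c / K) / 2 by
    positivity) hs1
  set v : MonoidAlgebra ℂ H := 1 - wseq R n with hv
  have hw := nm_wseq hu hs0 hs n
  have hwd := nm_wseq_sub hu hs0 hs n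
  set η : ℝ := s ^ n * q with hη
  have hη1 : η < min (c ^ 2) (κ * c / K) := by
    rw [hη]
    have h1 : 0 ≤ s ^ n := pow_nonneg hs0 n
    nlinarith
  have hE : nm (u * u - v * v) ≤ η := by
    have h1 : u * u - v * v = -((2 : ℂ) • (wseq R (n + 1) - wseq R n)) := by
      have h2 : (2 : ℂ) • wseq R (n + 1) = R + wseq R n * wseq R n := by
        rw [wseq, smul_smul]
        norm_num
      rw [smul_sub, h2]
      have h3 : (2 : ℂ) • wseq R n = wseq R n + wseq R n := two_smul ℂ _
      rw [h3, hv]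
      have h4 : R = 1 - u * u := hR
      rw [h4]
      noncomm_ring
    rw [h1, nm_neg, nm_smul]
    have h5 : ‖(2 : ℂ)‖ = 2 := by norm_num
    rw [h5, hη]
    linarith
  obtain ⟨φ, hφ⟩ := hH (insert 1 (u.coeff.support ∪ v.coeff.support))
  have hev1 : ∀ θ, ‖ev φ θ (u ^ 2 - v ^ 2)‖ ≤ η := fun θ =>
    (norm_ev_le φ θ _).trans (by rw [pow_two, pow_two]; exact hE)
  have hev2 : ∀ θ, c ≤ ‖ev φ θ v‖ := by
    intro θ
    rw [hv, map_sub, map_one]
    have h1 : ‖(1 : ℂ)‖ ≤ ‖1 - ev φ θ (wseq R n)‖ + ‖ev φ θ (wseq R n)‖ := by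
      have := norm_add_le (1 - ev φ θ (wseq R n)) (ev φ θ (wseq R n))
      simpa using this
    have h2 := (norm_ev_le φ θ (wseq R n)).trans hw
    rw [norm_one] at h1
    linarith
  obtain ⟨ε, hε, hev⟩ := exists_sign hc0 (hη1.trans_le (min_le_left _ _)) hev1 hev2
  refine ⟨ε, hε, ?_⟩
  have hεn : ‖ε‖ = 1 := by rcases hε with h | h <;> rw [h] <;> simp
  set δ := η / c with hδ
  have hδK : K * δ ≤ κ := by
    have h1 : η < κ * c / K := hη1.trans_le (min_le_right _ _)
    rw [lt_div_iff₀ hK0] at h1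
    rw [hδ, mul_div_assoc', div_le_iff₀ hc0]
    linarith
  have hcoef : ∀ h ∈ insert 1 u.coeff.support, ‖u.coeff h - ε * v.coeff h‖ ≤ δ := by
    intro h hh
    have h1 : (u - ε • v).coeff h = u.coeff h - ε * v.coeff h := by
      rw [coeff_sub, Finsupp.sub_apply, coeff_smul_apply, smul_eq_mul]
    rw [← h1]
    refine norm_coeff_le_of_ev hev hφ ?_ ?_
    · rw [Finset.mem_coe, Finset.mem_insert]
      rw [Finset.mem_insert] at hh
      rcases hh with h2 | h2
      · exact Or.inl h2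
      · exact Or.inr (Finset.mem_union_left _ h2)
    · intro g hg
      rw [Finset.mem_coe, Finset.mem_insert, Finset.mem_union]
      by_contra hcon
      push Not at hcon
      have h2 : u.coeff g = 0 := by simpa using hcon.2.1
      have h3 : v.coeff g = 0 := by simpa using hcon.2.2
      rw [Finsupp.mem_support_iff, coeff_sub, Finsupp.sub_apply, coeff_smul_apply, h2, h3] at hg
      simp at hg
  -- the sum
  have h1 : ∀ h ∈ u.coeff.support.erase 1, ‖u.coeff h‖ ≤ ‖v.coeff h‖ + δ := by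
    intro h hh
    have h2 := hcoef h (Finset.mem_insert_of_mem (Finset.mem_of_mem_erase hh))
    have h3 : ‖u.coeff h‖ ≤ ‖u.coeff h - ε * v.coeff h‖ + ‖ε * v.coeff h‖ := by
      have := norm_add_le (u.coeff h - ε * v.coeff h) (ε * v.coeff h)
      simpa using this
    rw [norm_mul, hεn, one_mul] at h3
    linarith
  have h2 : ‖u.coeff 1 - ε‖ ≤ ‖v.coeff 1 - 1‖ + δ := by
    have h2 := hcoef 1 (Finset.mem_insert_self _ _)
    have h3 : u.coeff 1 - ε = (u.coeff 1 - ε * v.coeff 1) + ε * (v.coeff 1 - 1) := by ring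
    rw [h3]
    refine (norm_add_le _ _).trans ?_
    rw [norm_mul, hεn, one_mul]
    linarith
  have h3 : (∑ h ∈ u.coeff.support.erase 1, ‖u.coeff h‖) ≤
      (∑ h ∈ u.coeff.support.erase 1, ‖v.coeff h‖) + u.coeff.support.card * δ := by
    refine (Finset.sum_le_sum h1).trans ?_
    rw [Finset.sum_add_distrib, Finset.sum_const, nsmul_eq_mul]
    have h4 : ((u.coeff.support.erase 1).card : ℝ) ≤ u.coeff.support.card := by
      exact_mod_cast Finset.card_le_card (Finset.erase_subset _ _)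
    have h5 : 0 ≤ δ := by
      rw [hδ]
      have : 0 ≤ η := by rw [hη]; positivity
      positivity
    nlinarith
  have h4 : (∑ h ∈ u.coeff.support.erase 1, ‖v.coeff h‖) + ‖v.coeff 1 - 1‖ ≤ s := by
    have h5 : ∀ h ∈ u.coeff.support.erase 1, ‖v.coeff h‖ = ‖(wseq R n).coeff h‖ := by
      intro h hh
      have h6 : h ≠ 1 := Finset.ne_of_mem_erase hh
      have h7 : v.coeff h = -(wseq R n).coeff h := by
        rw [hv, coeff_sub, Finsupp.sub_apply, one_def, coeff_single,
          Finsupp.single_eq_of_ne h6, zero_sub]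
      rw [h7, norm_neg]
    have h6 : ‖v.coeff 1 - 1‖ = ‖(wseq R n).coeff 1‖ := by
      have h7 : v.coeff 1 - 1 = -(wseq R n).coeff 1 := by
        rw [hv, coeff_sub, Finsupp.sub_apply, one_def, coeff_single, Finsupp.single_eq_same]
        ring
      rw [h7, norm_neg]
    rw [Finset.sum_congr rfl h5, h6]
    have h7 : (wseq R n).coeff.support ⊆ (wseq R n).coeff.support ∪ insert 1 u.coeff.support :=
      Finset.subset_union_left
    have h8 : insert 1 (u.coeff.support.erase 1) ⊆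
        (wseq R n).coeff.support ∪ insert 1 u.coeff.support := by
      intro x hx
      rw [Finset.mem_insert] at hx
      rw [Finset.mem_union, Finset.mem_insert]
      rcases hx with h9 | h9
      · exact Or.inr (Or.inl h9)
      · exact Or.inr (Or.inr (Finset.mem_of_mem_erase h9))
    have h9 := nm_eq h7
    rw [h9] at hw
    have h10 : ∑ h ∈ insert 1 (u.coeff.support.erase 1), ‖(wseq R n).coeff h‖ ≤ s :=
      (Finset.sum_le_sum_of_subset_of_nonneg h8 fun _ _ _ => norm_nonneg _).trans hw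
    rw [Finset.sum_insert (Finset.notMem_erase _ _)] at h10
    linarith
  have h5 : K * δ = u.coeff.support.card * δ + 2 * δ := by rw [hK]; ring
  have h6 : 0 ≤ δ := by
    rw [hδ]
    have : 0 ≤ η := by rw [hη]; positivity
    positivity
  linarith

/-- If `1 - u ^ 2` has norm at most `q < 1`, then `u` is within `1 - √(1 - q)` of `1` or `-1`. -/
theorem root_near [DecidableEq H] (hH : FullZ H) {u : MonoidAlgebra ℂ H} {q s : ℝ}
    (hu : nm (1 - u * u) ≤ q) (hs0 : 0 ≤ s) (hs1 : s < 1) (hs : q + s ^ 2 = 2 * s) :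
    ∃ ε : ℂ, (ε = 1 ∨ ε = -1) ∧
      (∑ h ∈ u.coeff.support.erase 1, ‖u.coeff h‖) + ‖u.coeff 1 - ε‖ ≤ s := by
  classical
  by_contra hcon
  push Not at hcon
  have h1 := hcon 1 (Or.inl rfl)
  have h2 := hcon (-1) (Or.inr rfl)
  set L1 := (∑ h ∈ u.coeff.support.erase 1, ‖u.coeff h‖) + ‖u.coeff 1 - 1‖ with hL1
  set L2 := (∑ h ∈ u.coeff.support.erase 1, ‖u.coeff h‖) + ‖u.coeff 1 - -1‖ with hL2
  have hκ : 0 < (min L1 L2 - s) / 2 := by
    have : s < min L1 L2 := lt_min h1 h2
    linarith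
  obtain ⟨ε, hε, h3⟩ := root_approx hH hu hs0 hs1 hs hκ
  have h4 := min_le_left L1 L2
  have h5 := min_le_right L1 L2
  rcases hε with h | h
  · rw [h] at h3
    linarith
  · rw [h] at h3
    linarith

end Pool.Agent.Y84.GP
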